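import Pool.Agent.R846.NC.Zeta
import Pool.Agent.R960.GI.Norm

open Filter Set

namespace Pool.Agent.Results.MP_7eacff_nt.GapInterpolation

/-- multiplicity of `s` as a zero of the Riemann zeta function (order of vanishing at `s`) -/
noncomputable def zmult (s : ℂ) : ℕ := analyticOrderNatAt riemannZeta s

/-- the number of nontrivial zeros of `ζ` with ordinate in `(0, t]`, with multiplicity -/
noncomputable def NZ (t : ℝ) : ℕ :=
  ∑ᶠ s ∈ {s : ℂ | riemannZeta s = 0 ∧ 0 < s.re ∧ s.re < 1 ∧ 0 < s.im ∧ s.im ≤ t}, zmult s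

/-- for `n ≥ 1`: the `n`-th positive ordinate `γ n` of a nontrivial zero of `ζ`, the ordinates being
listed in nondecreasing order and repeated according to multiplicity -/
noncomputable def γ (n : ℕ) : ℝ := sInf {t : ℝ | n ≤ NZ t}

/-- the unfolded consecutive gaps `δ_n = (γ_{n+1} - γ_n) / 2π · log (γ_n / 2π)` -/
noncomputable def δ (n : ℕ) : ℝ := (γ (n + 1) - γ n) / (2 * Real.pi) * Real.log (γ n / (2 * Real.pi))

/-- the weights: `lam J 0 = 1`, `0 ≤ lam J k ≤ 1`, `lam J k → 1` as `J → ∞` for each `k`, and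
`lam J k = 0` for `k ≥ 2 ^ J` -/
noncomputable def lam (J k : ℕ) : ℝ :=
  (∑ j ∈ Finset.Icc 1 J, 1 / (j : ℝ) * max 0 (1 - (k : ℝ) / 2 ^ j)) /
    ∑ j ∈ Finset.Icc 1 J, 1 / (j : ℝ)

/-- the prediction of the sum `δ_n + ... + δ_{n+L-1}` from the gaps on its left, `δ_{n-k}` with
`1 ≤ k < 2 ^ J`, and the gaps on its right, `δ_{n+k}` with `L ≤ k < 2 ^ J` -/
noncomputable def pred (L J n : ℕ) : ℝ :=
  L - ∑ k ∈ Finset.Ico 1 (2 ^ J), lam J k * (δ (n - k) - 1) -
    ∑ k ∈ Finset.Ico L (2 ^ J), lam J k * (δ (n + k) - 1)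

theorem δ_eq (n : ℕ) : δ n = Pool.Agent.Y743.LR.dl n := by
  have e : δ n = (SG.ord (n + 1) - SG.ord n) / (2 * Real.pi) *
    Real.log (SG.ord n / (2 * Real.pi)) := rfl
  rw [e]
  unfold Pool.Agent.Y743.LR.dl
  ring

/-- On the Riemann hypothesis, every gap between consecutive zeros of `ζ`, and every sum of `L`
consecutive gaps, is determined up to a small mean square error by the other gaps: by a fixed
explicit linear combination of the `2 ^ J - 1` preceding and the following gaps. -/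
theorem result (RH : RiemannHypothesis) : ∃ C : ℝ, 0 < C ∧
    (∀ J : ℕ, 1 ≤ J → ∀ L : ℕ, 1 ≤ L → L ≤ 2 ^ J → ∀ᶠ N : ℕ in atTop,
      (1 / N : ℝ) * ∑ n ∈ Finset.Icc (2 ^ J) N,
        (∑ i ∈ Finset.range L, δ (n + i) - pred L J n) ^ 2 ≤ C * L ^ 4 / Real.log (J + 1)) ∧
    ∀ L : ℕ, 1 ≤ L → ∀ ε : ℝ, 0 < ε → ∃ J0 : ℕ, ∀ J : ℕ, J0 ≤ J → ∀ᶠ N : ℕ in atTop,
      ({n : ℕ | 2 ^ J ≤ n ∧ n ≤ N ∧ ε < |∑ i ∈ Finset.range L, δ (n + i) - pred L J n|}.ncard : ℝ) ≤
        ε * N := by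
  have hfun : (fun n => Pool.Agent.Y743.LR.dl n - 1) = fun n => δ n - 1 :=
    funext fun n => by rw [δ_eq]
  have hg := R846.NC.logGrowth (H177.Lat.rhs_of RH)
  obtain ⟨V, hv⟩ := R846.NC.smallVar (H177.Lat.rhs_of RH)
  rw [hfun] at hg hv
  obtain ⟨C, hC⟩ : ∃ C : ℝ, C = 400000 * (|V| + 1) := ⟨_, rfl⟩
  have hC0 : 0 < C := by rw [hC]; positivity
  have key : ∀ J : ℕ, 1 ≤ J → ∀ L : ℕ, 1 ≤ L → L ≤ 2 ^ J → ∀ᶠ N : ℕ in atTop,
      (1 / N : ℝ) * ∑ n ∈ Finset.Icc (2 ^ J) N,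
        (∑ i ∈ Finset.range L, δ (n + i) - pred L J n) ^ 2 ≤ C * L ^ 4 / Real.log (J + 1) := by
    intro J hJ L hL hLJ
    filter_upwards [R960.GI.block_term hg hv hJ hL hLJ, eventually_gt_atTop 0] with N hN hN0
    have hNr : (0 : ℝ) < N := by exact_mod_cast hN0
    have e : ∀ n, R960.GI.bdef (fun n => δ n - 1) L J n =
        ∑ i ∈ Finset.range L, δ (n + i) - pred L J n := by
      intro n
      have e1 : ∑ i ∈ Finset.range L, (δ (n + i) - 1) = ∑ i ∈ Finset.range L, δ (n + i) - L := by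
        rw [Finset.sum_sub_distrib]
        simp
      show ∑ i ∈ Finset.range L, (δ (n + i) - 1) +
        ∑ k ∈ Finset.Ico 1 (2 ^ J), lam J k * (δ (n - k) - 1) +
        ∑ k ∈ Finset.Ico L (2 ^ J), lam J k * (δ (n + k) - 1) = _
      rw [e1]
      unfold pred
      ring
    simp only [e] at hN
    rw [← hC] at hN
    have hlog : 0 < Real.log ((J : ℝ) + 1) := by
      apply Real.log_pos
      have : (1 : ℝ) ≤ J := by exact_mod_cast hJ
      linarith
    have hH := R960.GI.HH_log J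
    have h1 : C * (L : ℝ) ^ 4 / R960.GI.HH J ≤ C * L ^ 4 / Real.log (J + 1) := by
      apply div_le_div_of_nonneg_left (by positivity) hlog hH
    calc (1 / N : ℝ) * ∑ n ∈ Finset.Icc (2 ^ J) N,
          (∑ i ∈ Finset.range L, δ (n + i) - pred L J n) ^ 2
        ≤ (1 / N : ℝ) * (C * L ^ 4 / R960.GI.HH J * N) :=
          mul_le_mul_of_nonneg_left hN (by positivity)
      _ = C * L ^ 4 / R960.GI.HH J := by field_simp
      _ ≤ _ := h1
  refine ⟨C, hC0, key, fun L hL ε hε => ?_⟩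
  have hlim : Tendsto (fun J : ℕ => C * (L : ℝ) ^ 4 / Real.log (J + 1)) atTop (nhds 0) := by
    apply Tendsto.const_div_atTop
    exact Real.tendsto_log_atTop.comp (tendsto_atTop_add_const_right _ _ tendsto_natCast_atTop_atTop)
  have hev := (hlim.eventually_lt_const (show 0 < ε ^ 3 by positivity)).and
    (((tendsto_pow_atTop_atTop_of_one_lt (show 1 < 2 by norm_num)).eventually_ge_atTop L).and
      (eventually_ge_atTop 1))
  obtain ⟨J0, hJ0⟩ := hev.exists_forall_of_atTop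
  refine ⟨J0, fun J hJ => ?_⟩
  obtain ⟨h1, h2, h3⟩ := hJ0 J hJ
  filter_upwards [key J h3 L hL h2, eventually_gt_atTop 0] with N hN hN0
  have hNr : (0 : ℝ) < N := by exact_mod_cast hN0
  classical
  have e : {n : ℕ | 2 ^ J ≤ n ∧ n ≤ N ∧ ε < |∑ i ∈ Finset.range L, δ (n + i) - pred L J n|} =
      ↑((Finset.Icc (2 ^ J) N).filter fun n =>
        ε < |∑ i ∈ Finset.range L, δ (n + i) - pred L J n|) := by
    ext n
    simp only [mem_ofPred_eq, Finset.coe_filter, Finset.mem_Icc, and_assoc]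
  rw [e, Set.ncard_coe_finset]
  have h4 : ε ^ 2 * (((Finset.Icc (2 ^ J) N).filter fun n =>
      ε < |∑ i ∈ Finset.range L, δ (n + i) - pred L J n|).card : ℝ) ≤
      ∑ n ∈ Finset.Icc (2 ^ J) N, (∑ i ∈ Finset.range L, δ (n + i) - pred L J n) ^ 2 := by
    rw [mul_comm, ← nsmul_eq_mul, ← Finset.sum_const]
    calc ∑ n ∈ (Finset.Icc (2 ^ J) N).filter fun n =>
          ε < |∑ i ∈ Finset.range L, δ (n + i) - pred L J n|, ε ^ 2
        ≤ ∑ n ∈ (Finset.Icc (2 ^ J) N).filter fun n =>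
          ε < |∑ i ∈ Finset.range L, δ (n + i) - pred L J n|,
          (∑ i ∈ Finset.range L, δ (n + i) - pred L J n) ^ 2 := by
          refine Finset.sum_le_sum fun n hn => ?_
          rw [Finset.mem_filter] at hn
          rw [← sq_abs (∑ i ∈ Finset.range L, δ (n + i) - pred L J n)]
          exact pow_le_pow_left₀ hε.le hn.2.le 2
      _ ≤ _ := Finset.sum_le_sum_of_subset_of_nonneg (Finset.filter_subset _ _)
          fun n _ _ => sq_nonneg _
  have h5 : ∑ n ∈ Finset.Icc (2 ^ J) N, (∑ i ∈ Finset.range L, δ (n + i) - pred L J n) ^ 2 ≤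
      ε ^ 3 * N := by
    have h6 := hN.trans h1.le
    rw [one_div, inv_mul_le_iff₀ hNr] at h6
    linarith
  have h7 : ε ^ 2 * (((Finset.Icc (2 ^ J) N).filter fun n =>
      ε < |∑ i ∈ Finset.range L, δ (n + i) - pred L J n|).card : ℝ) ≤ ε ^ 2 * (ε * N) := by
    calc _ ≤ ε ^ 3 * N := h4.trans h5
      _ = _ := by ring
  exact le_of_mul_le_mul_left h7 (by positivity)

end Pool.Agent.Results.MP_7eacff_nt.GapInterpolation
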