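import Pool.Agent.R320.JL.Conv

/-!
# The joint law and all joint moments of sums of consecutive unfolded gaps, under RH

Let `D b n = δ_n + ... + δ_{n+b-1} - b` be the centred sum of `b` consecutive unfolded gaps.  Assume
the Riemann hypothesis.  We determine, as `r → ∞`, the joint law of any number `k` of such sums of
lengths `1 ≤ b_1, ..., b_k ≤ r` (arbitrary, at all scales) at the same zero `γ_n`, `n ≤ N`, together
with all their joint moments: they are asymptotically jointly Gaussian, with the covariances of a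
logarithmically correlated field, `E D(a) D(b) ≈ (log a + log b - log |a - b|) / (2 π²)`, exactly as
for the eigenvalues of the GUE.  For instance the sums over two adjacent blocks of `r` gaps have
correlation `-1/2`, and, for separated scales, the sums of `r ^ s` and `r ^ t` gaps have covariance
`min s t * (log r) / (2 π²)`.

By the Cramér-Wold device it is enough (and equivalent) to treat all linear combinations
`∑ c_i D(b_i)`; sums of gaps over arbitrary blocks `[n + a, n + b)` are differences `D b - D a`.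
-/

open Filter MeasureTheory

namespace Pool.Agent.Results.MP_7eacff_nt.GapSumsJoint

/-- multiplicity of `s` as a zero of the Riemann zeta function (order of vanishing at `s`) -/
noncomputable def zmult (s : ℂ) : ℕ := analyticOrderNatAt riemannZeta s

/-- the number of nontrivial zeros of `ζ` with ordinate in `(0, t]`, with multiplicity -/
noncomputable def NZ (t : ℝ) : ℕ :=
  ∑ᶠ s ∈ {s : ℂ | riemannZeta s = 0 ∧ 0 < s.re ∧ s.re < 1 ∧ 0 < s.im ∧ s.im ≤ t}, zmult s

/-- for `n ≥ 1`: the `n`-th positive ordinate `γ n` of a nontrivial zero of `ζ`, the ordinates being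
listed in nondecreasing order and repeated according to multiplicity -/
noncomputable def γ (n : ℕ) : ℝ := sInf {t : ℝ | n ≤ NZ t}

/-- the unfolded consecutive gaps `δ_n = (γ_{n+1} - γ_n) / 2π · log (γ_n / 2π)` -/
noncomputable def δ (n : ℕ) : ℝ := (γ (n + 1) - γ n) / (2 * Real.pi) * Real.log (γ n / (2 * Real.pi))

/-- the centred sum of `b` consecutive unfolded gaps, `δ_n + ... + δ_{n+b-1} - b` -/
noncomputable def D (b n : ℕ) : ℝ := ∑ i ∈ Finset.range b, δ (n + i) - b

/-- the covariance kernel `(log a + log b - log |a - b|) / 2`, where `log 0 = 0` -/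
noncomputable def κ (a b : ℕ) : ℝ :=
  (Real.log a + Real.log b - Real.log |(a : ℝ) - b|) / 2

/-- the limiting variance `∑ c_i c_j κ (b_i, b_j) / log r` of the scaled linear combination
`∑ c_i D (b_i)` (cut off at `0`) -/
noncomputable def V {k : ℕ} (c : Fin k → ℝ) (r : ℕ) (b : Fin k → ℕ) : NNReal :=
  ((∑ i, ∑ j, c i * c j * κ (b i) (b j)) / Real.log r).toNNReal

lemma rhs_of (hRH : RiemannHypothesis) : SP.RHs := by
  intro s h0 h1 hz
  apply hRH s hz
  · rintro ⟨n, hn⟩
    rw [hn] at h0
    simp at h0
    have : (0 : ℝ) ≤ n := Nat.cast_nonneg n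
    linarith
  · intro h
    rw [h] at h1
    simp at h1

/-- **Joint law and joint moments of sums of consecutive unfolded gaps (RH).**  For all real
`c_1, ..., c_k`, every continuous `f` of polynomial growth and every `ε > 0` there is `r₀` such that
for all `r ≥ r₀`, all `N ≥ 1` with `r log r ≤ log N` and all lengths `1 ≤ b_1, ..., b_k ≤ r` the mean
over `n ≤ N` of `f (∑ c_i D (b_i, n) / (√(log r) / π))` differs by at most `ε` from the expectation of
`f` for the centred Gaussian law of variance `∑ c_i c_j κ (b_i, b_j) / log r`. -/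
theorem result (hRH : RiemannHypothesis) {k : ℕ} (c : Fin k → ℝ) (f : ℝ → ℝ) (hf : Continuous f)
    (A : ℝ) (p : ℕ) (hfA : ∀ x, |f x| ≤ A * (1 + |x|) ^ p) (ε : ℝ) (hε : 0 < ε) :
    ∃ r₀ : ℕ, ∀ r : ℕ, r₀ ≤ r → ∀ N : ℕ, 1 ≤ N → r * Real.log r ≤ Real.log N →
      ∀ b : Fin k → ℕ, (∀ i, 1 ≤ b i ∧ b i ≤ r) →
      |(∑ n ∈ Finset.Icc 1 N, f ((∑ i, c i * D (b i) n) / (Real.sqrt (Real.log r) / Real.pi))) / N -
        ∫ x, f x ∂(ProbabilityTheory.gaussianReal 0 (V c r b))| ≤ ε := by
  obtain ⟨r₀, h⟩ :=
    (Pool.Agent.R320.JL.jconv (rhs_of hRH) c f hf A p hfA ε hε).exists_forall_of_atTop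
  refine ⟨r₀, fun r hr N hN hrN b hb => ?_⟩
  have h1 := h r hr N hN hrN b hb
  have e1 : V c r b = (Pool.Agent.R320.JL.QQ c r b).toNNReal := by
    unfold V Pool.Agent.R320.JL.QQ
    congr 1
    rw [Finset.sum_div]
    refine Finset.sum_congr rfl fun i _ => ?_
    rw [Finset.sum_div]
    refine Finset.sum_congr rfl fun j _ => ?_
    unfold κ Pool.Agent.R320.JL.ld
    field_simp
  rw [e1, div_eq_inv_mul]
  exact h1

end Pool.Agent.Results.MP_7eacff_nt.GapSumsJoint
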