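import Pool.Agent.R846.NC.Zeta
import Pool.Agent.R846.NC.Abs3
import Pool.Agent.R846.NC.Abs4
import Pool.Agent.R846.NC.Low
import Pool.Agent.Y747.Gp
import Pool.Agent.Y747.Avg

open Filter Set

namespace Pool.Agent.Results.MP_7eacff_nt.NegativeCorrelation

/-- multiplicity of `s` as a zero of the Riemann zeta function (order of vanishing at `s`) -/
noncomputable def zmult (s : ℂ) : ℕ := analyticOrderNatAt riemannZeta s

/-- the number of nontrivial zeros of `ζ` with ordinate in `(0, t]`, with multiplicity -/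
noncomputable def NZ (t : ℝ) : ℕ :=
  ∑ᶠ s ∈ {s : ℂ | riemannZeta s = 0 ∧ 0 < s.re ∧ s.re < 1 ∧ 0 < s.im ∧ s.im ≤ t}, zmult s

/-- for `n ≥ 1`: the `n`-th positive ordinate `γ n` of a nontrivial zero of `ζ`, the ordinates being
listed in nondecreasing order and repeated according to multiplicity -/
noncomputable def γ (n : ℕ) : ℝ := sInf {t : ℝ | n ≤ NZ t}

/-- the unfolded consecutive gaps `δ_n = (γ_{n+1} - γ_n) / 2π · log (γ_n / 2π)` -/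
noncomputable def δ (n : ℕ) : ℝ := (γ (n + 1) - γ n) / (2 * Real.pi) * Real.log (γ n / (2 * Real.pi))

/-- the empirical covariance, at lag `k`, of the first `N` unfolded gaps (their mean value is `1`);
for `k = 0` this is the empirical variance -/
noncomputable def cov (k N : ℕ) : ℝ :=
  (1 / N : ℝ) * ∑ n ∈ Finset.Icc 1 N, (δ n - 1) * (δ (n + k) - 1)

/-- the empirical mean of `min (δ_n, R)` over the first `N` unfolded gaps -/
noncomputable def tmean (R : ℝ) (N : ℕ) : ℝ := (1 / N : ℝ) * ∑ n ∈ Finset.Icc 1 N, min (δ n) R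

/-- the empirical covariance, at lag `k`, of the truncated gaps `min (δ_n, R)` -/
noncomputable def tcov (R : ℝ) (k N : ℕ) : ℝ :=
  (1 / N : ℝ) * ∑ n ∈ Finset.Icc 1 N, min (δ n) R * min (δ (n + k)) R - tmean R N ^ 2

/-- the trapezoidal weight `min (k (1 - 1/m), m (1 - k/m²))`, nonnegative for `k ≤ m²` and at most
`min (k, m)` -/
noncomputable def wt (m k : ℕ) : ℝ := min ((k : ℝ) * (1 - 1 / m)) (m * (1 - (k : ℝ) / (m : ℝ) ^ 2))

theorem dl_eq (n : ℕ) : Pool.Agent.Y743.LR.dl n = Y747.dl n := by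
  unfold Pool.Agent.Y743.LR.dl Y747.dl
  ring

theorem δ_eq (n : ℕ) : δ n = Pool.Agent.Y743.LR.dl n := (dl_eq n).symm

theorem variance (RH : RiemannHypothesis) : ∀ᶠ N : ℕ in atTop,
    (0.0404 : ℝ) * N ≤ ∑ n ∈ Finset.Icc 1 N, (δ n - 1) ^ 2 := by
  filter_upwards [Y747.plus_ge RH (1 / 100000) (by norm_num),
    Y747.sum_dl_le (1 / 100000) (by norm_num), eventually_gt_atTop 0] with N h1 h2 h3
  have hN : (0 : ℝ) < N := by exact_mod_cast h3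
  have e : ∑ n ∈ Finset.Icc 1 N, |Y747.dl n - 1| =
      2 * ∑ n ∈ Finset.Icc 1 N, max 0 (Y747.dl n - 1) - (∑ n ∈ Finset.Icc 1 N, Y747.dl n - N) := by
    have e1 : (N : ℝ) = ∑ n ∈ Finset.Icc 1 N, (1 : ℝ) := by simp
    rw [e1, ← Finset.sum_sub_distrib, Finset.mul_sum, ← Finset.sum_sub_distrib]
    apply Finset.sum_congr rfl
    intro n _
    rcases le_total 0 (Y747.dl n - 1) with h | h
    · rw [abs_of_nonneg h, max_eq_right h]
      ring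
    · rw [abs_of_nonpos h, max_eq_left h]
      ring
  have h4 : (0.201 : ℝ) * N ≤ ∑ n ∈ Finset.Icc 1 N, |Y747.dl n - 1| := by
    rw [e]
    linarith
  have h5 : (∑ n ∈ Finset.Icc 1 N, |Y747.dl n - 1|) ^ 2 ≤
      N * ∑ n ∈ Finset.Icc 1 N, |Y747.dl n - 1| ^ 2 := by
    have := sq_sum_le_card_mul_sum_sq (s := Finset.Icc 1 N) (f := fun n => |Y747.dl n - 1|)
    rwa [Nat.card_Icc, Nat.add_sub_cancel] at this
  have h6 : ∑ n ∈ Finset.Icc 1 N, |Y747.dl n - 1| ^ 2 = ∑ n ∈ Finset.Icc 1 N, (δ n - 1) ^ 2 :=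
    Finset.sum_congr rfl fun n _ => by rw [sq_abs, δ_eq, dl_eq]
  rw [h6] at h5
  have h7 : ((0.201 : ℝ) * N) ^ 2 ≤ (∑ n ∈ Finset.Icc 1 N, |Y747.dl n - 1|) ^ 2 :=
    pow_le_pow_left₀ (by positivity) h4 2
  have h8 : (N : ℝ) * (0.0404 * N) ≤ N * ∑ n ∈ Finset.Icc 1 N, (δ n - 1) ^ 2 := by
    nlinarith
  exact le_of_mul_le_mul_left h8 hN

/-- On the Riemann hypothesis, the consecutive unfolded gaps of the zeta zeros are negatively
correlated. -/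
theorem result (RH : RiemannHypothesis) :
    (∃ C : ℝ, ∀ m : ℕ, 1 ≤ m → ∀ᶠ N : ℕ in atTop,
      |cov 0 N + 2 * ∑ k ∈ Finset.Ico 1 m, (1 - (k : ℝ) / m) * cov k N| ≤
        C * (1 + Real.log m) ^ 2 / m) ∧
    (∃ m0 : ℕ, ∀ m : ℕ, m0 ≤ m → ∀ᶠ N : ℕ in atTop,
      ∑ k ∈ Finset.Ico 1 m, (1 - (k : ℝ) / m) * cov k N ≤ -(1 / 50)) ∧
    (∃ (K : ℕ) (c : ℝ), 0 < c ∧ ∀ᶠ N : ℕ in atTop, ∃ k : ℕ, 1 ≤ k ∧ k ≤ K ∧ cov k N ≤ -c) ∧
    (∃ (R : ℝ) (K : ℕ) (c : ℝ), 0 < R ∧ 0 < c ∧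
      ∀ᶠ N : ℕ in atTop, ∃ k : ℕ, 1 ≤ k ∧ k ≤ K ∧ tcov R k N ≤ -c) ∧
    (∃ c : ℝ, 0 < c ∧ ∃ m0 : ℕ, ∀ m : ℕ, m0 ≤ m → ∀ᶠ N : ℕ in atTop,
      c * Real.log m ≤ ∑ k ∈ Finset.Ico 1 (m ^ 2), wt m k * (-cov k N)) := by
  have hfun : (fun n => Pool.Agent.Y743.LR.dl n - 1) = fun n => δ n - 1 :=
    funext fun n => by rw [δ_eq]
  have hg : R846.NC.LogGrowth (fun n => δ n - 1) := by
    have := R846.NC.logGrowth (H177.Lat.rhs_of RH)
    rwa [hfun] at this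
  obtain ⟨V, hv⟩ := R846.NC.smallVar (H177.Lat.rhs_of RH)
  rw [hfun] at hv
  have hcov : ∀ k N, R846.NC.cov (fun n => δ n - 1) k N = cov k N := fun _ _ => rfl
  have hvar := variance RH
  refine ⟨⟨V + 1, fun m hm => ?_⟩, ?_, ?_, ?_, ?_⟩
  · exact R846.NC.rule hg hv m hm
  · obtain ⟨m0, _, h⟩ := R846.NC.total_neg hg hv hvar (1 / 50) (by norm_num)
    exact ⟨m0, h⟩
  · exact R846.NC.exists_neg hg hv hvar (by norm_num)
  · have hnn : ∃ n0 : ℕ, ∀ n, n0 ≤ n → 0 ≤ δ n := by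
      obtain ⟨n0, _, h⟩ := R846.NC.dl_nonneg'
      exact ⟨n0, fun n hn => by rw [δ_eq]; exact h n hn⟩
    obtain ⟨R, K, c, hR, hc, h⟩ := R846.NC.trunc hg hv hvar (by norm_num) hnn
    refine ⟨R, K, c, hR, hc, ?_⟩
    filter_upwards [h] with N hN
    obtain ⟨k, h1, h2, h3⟩ := hN
    refine ⟨k, h1, h2, ?_⟩
    unfold tcov tmean
    linarith
  · obtain ⟨c1, hc1, hlow⟩ := R846.NC.var_low
    simp only [← δ_eq] at hlow
    obtain ⟨m2, _, h⟩ := R846.NC.long_memory (x := fun n => δ n - 1) hg hv hc1 hlow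
    exact ⟨c1 / 4, by positivity, m2, h⟩

end Pool.Agent.Results.MP_7eacff_nt.NegativeCorrelation
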