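import Pool.Agent.R321.FD14

open Filter

namespace Pool.Agent.Results.MP_7eacff_nt.RSumsAlmostAllRuns

/-- multiplicity of `s` as a zero of the Riemann zeta function (order of vanishing at `s`) -/
noncomputable def zmult (s : ℂ) : ℕ := analyticOrderNatAt riemannZeta s

/-- the number of nontrivial zeros of `ζ` with ordinate in `(0, t]`, with multiplicity -/
noncomputable def NZ (t : ℝ) : ℕ :=
  ∑ᶠ s ∈ {s : ℂ | riemannZeta s = 0 ∧ 0 < s.re ∧ s.re < 1 ∧ 0 < s.im ∧ s.im ≤ t}, zmult s

/-- for `n ≥ 1`: the `n`-th positive ordinate `γ n` of a nontrivial zero of `ζ`, the ordinates being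
listed in nondecreasing order and repeated according to multiplicity -/
noncomputable def γ (n : ℕ) : ℝ := sInf {t : ℝ | n ≤ NZ t}

/-- the unfolded consecutive gaps `δ_n = (γ_{n+1} - γ_n) / 2π · log (γ_n / 2π)` -/
noncomputable def δ (n : ℕ) : ℝ := (γ (n + 1) - γ n) / (2 * Real.pi) * Real.log (γ n / (2 * Real.pi))

/-- `P` holds somewhere in almost every run of boundedly many consecutive indices: for every `ε > 0`
there is a fixed `m` such that for all large `N`, for all but at most `ε N` of the `n ≤ N`, one of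
`P n, P (n + 1), …, P (n + m - 1)` holds -/
def AlmostAllRuns (P : ℕ → Prop) : Prop :=
  ∀ ε : ℝ, 0 < ε → ∃ m N₀ : ℕ, ∀ N : ℕ, N₀ ≤ N →
    ({n : ℕ | 1 ≤ n ∧ n ≤ N ∧ ∀ j < m, ¬ P (n + j)}.ncard : ℝ) ≤ ε * N

/-- Assume the Riemann hypothesis and let `δ_n` be the unfolded gaps between the ordinates of the
zeta zeros. The sum `δ_n + ... + δ_{n+r-1}` has mean value `r`.
(1) For every `r ≥ 1`, almost every run of boundedly many consecutive `n` contains an `n` at which
this sum is larger than `r + √r - 3/20`, and an `n` at which it is smaller than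
`r - (7/10) √r + 37/100`.
(2) For every `ε > 0` the same holds with `r + (√2 - ε) √r` and `r - (√2 - ε) √r` if `r` is large. -/
theorem result (RH : RiemannHypothesis) :
    (∀ r : ℕ, 1 ≤ r →
      AlmostAllRuns (fun n => r + Real.sqrt r - 3 / 20 < ∑ i ∈ Finset.range r, δ (n + i)) ∧
      AlmostAllRuns (fun n => ∑ i ∈ Finset.range r, δ (n + i) <
        r - 7 / 10 * Real.sqrt r + 37 / 100)) ∧
    (∀ ε : ℝ, 0 < ε → ∃ r₀ : ℕ, ∀ r : ℕ, r₀ ≤ r →
      AlmostAllRuns (fun n => r + (Real.sqrt 2 - ε) * Real.sqrt r <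
        ∑ i ∈ Finset.range r, δ (n + i)) ∧
      AlmostAllRuns (fun n => ∑ i ∈ Finset.range r, δ (n + i) <
        r - (Real.sqrt 2 - ε) * Real.sqrt r)) :=
  ⟨fun _ hr => Pool.Agent.R321.FA.all_k RH hr, fun _ hε => Pool.Agent.R321.FA.asym RH hε⟩

end Pool.Agent.Results.MP_7eacff_nt.RSumsAlmostAllRuns
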